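import Mathlib

set_option autoImplicit false

namespace Pool.Agent.Results.MP_428550_an.HolderBound

open Filter Topology Set

/-- The unit interval `[0,1]`. -/
abbrev I : Type := Set.Icc (0 : ℝ) 1

/-- `A` is `(n, φ, ε)`-separated: distinct points of `A` are at `d_n`-distance greater than `ε`,
where `d_n(x, y) = max_{0 ≤ j < n} |φ^j x - φ^j y|`. -/
def IsSeparated (φ : I → I) (n : ℕ) (ε : ℝ) (A : Finset I) : Prop :=
  ∀ x ∈ A, ∀ y ∈ A, x ≠ y → ∃ j < n, ε < |((φ^[j] x : I) : ℝ) - ((φ^[j] y : I) : ℝ)|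

/-- `sep(n, φ, ε)`: the maximal cardinality of an `(n, φ, ε)`-separated set. -/
noncomputable def sepNum (φ : I → I) (n : ℕ) (ε : ℝ) : ℕ :=
  sSup {k : ℕ | ∃ A : Finset I, IsSeparated φ n ε A ∧ A.card = k}

/-- `sep(φ, ε) = limsup_n (1/n) log sep(n, φ, ε)`. -/
noncomputable def sepRate (φ : I → I) (ε : ℝ) : EReal :=
  limsup (fun n : ℕ => ((Real.log (sepNum φ n ε) / n : ℝ) : EReal)) atTop

/-- The upper metric mean dimension `limsup_{ε → 0} sep(φ, ε) / |log ε|`. -/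
noncomputable def upperMdim (φ : I → I) : EReal :=
  limsup (fun ε : ℝ => sepRate φ ε / ((|Real.log ε| : ℝ) : EReal)) (𝓝[>] 0)

/-- The lower metric mean dimension `liminf_{ε → 0} sep(φ, ε) / |log ε|`. -/
noncomputable def lowerMdim (φ : I → I) : EReal :=
  liminf (fun ε : ℝ => sepRate φ ε / ((|Real.log ε| : ℝ) : EReal)) (𝓝[>] 0)

/-- `φ` is `α`-Hölder continuous. -/
def IsHolder (α : ℝ) (φ : I → I) : Prop :=
  ∃ K : ℝ, 0 < K ∧ ∀ x y : I, |(φ x : ℝ) - φ y| ≤ K * |(x : ℝ) - y| ^ α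

/-- the grid cell of a point -/
noncomputable def cell (ε : ℝ) (x : I) : ℕ := ⌊(x : ℝ) / ε⌋₊

theorem cell_le {ε : ℝ} (hε : 0 < ε) (x : I) : cell ε x ≤ ⌊1 / ε⌋₊ := by
  apply Nat.floor_le_floor
  exact div_le_div_of_nonneg_right x.2.2 hε.le

theorem dist_of_cell {ε : ℝ} (hε : 0 < ε) {x y : I} (h : cell ε x = cell ε y) :
    |(x : ℝ) - y| < ε := by
  have hx : (0 : ℝ) ≤ (x : ℝ) / ε := div_nonneg x.2.1 hε.le
  have hy : (0 : ℝ) ≤ (y : ℝ) / ε := div_nonneg y.2.1 hε.le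
  have h1 := Nat.floor_le hx
  have h2 := Nat.floor_le hy
  have h3 := Nat.lt_floor_add_one ((x : ℝ) / ε)
  have h4 := Nat.lt_floor_add_one ((y : ℝ) / ε)
  unfold cell at h
  rw [h] at h1 h3
  have h5 : |(x : ℝ) / ε - (y : ℝ) / ε| < 1 := by
    rw [abs_lt]; constructor <;> linarith
  rw [← sub_div, abs_div, abs_of_pos hε, div_lt_one hε] at h5
  exact h5

/-- the set of cells which contain an image of a point of the cell `i` -/
def succs (φ : I → I) (ε : ℝ) (i : ℕ) : Set ℕ := {m | ∃ x : I, cell ε x = i ∧ cell ε (φ x) = m}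

theorem succs_bound {φ : I → I} {ε K α : ℝ} (hε : 0 < ε) (hα : 0 < α) (hK : 0 < K)
    (hφ : ∀ x y : I, |(φ x : ℝ) - φ y| ≤ K * |(x : ℝ) - y| ^ α) (i : ℕ) :
    (succs φ ε i).encard ≤ ((⌊K * ε ^ (α - 1)⌋₊ + 2 : ℕ) : ℕ∞) := by
  classical
  by_cases hne : (succs φ ε i).Nonempty
  · -- take the least element
    have hmem := Nat.sInf_mem hne
    set m := sInf (succs φ ε i) with hm
    have hsub : succs φ ε i ⊆ (Finset.Icc m (m + (⌊K * ε ^ (α - 1)⌋₊ + 1)) : Set ℕ) := by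
      intro k hk
      rw [Finset.coe_Icc, Set.mem_Icc]
      refine ⟨Nat.sInf_le hk, ?_⟩
      obtain ⟨x, hx, hxm⟩ := hmem
      obtain ⟨y, hy, hyk⟩ := hk
      have hd : |(y : ℝ) - x| < ε := dist_of_cell hε (by rw [hx, hy])
      have h1 := hφ y x
      have h2 : |(y : ℝ) - x| ^ α ≤ ε ^ α :=
        Real.rpow_le_rpow (abs_nonneg _) hd.le hα.le
      have h3 : |(φ y : ℝ) - φ x| ≤ K * ε ^ α := h1.trans (by gcongr)
      have h4 : (φ y : ℝ) / ε - (φ x : ℝ) / ε ≤ K * ε ^ (α - 1) := by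
        rw [← sub_div, Real.rpow_sub hε, Real.rpow_one, ← mul_div_assoc]
        apply div_le_div_of_nonneg_right _ hε.le
        exact (le_abs_self _).trans h3
      rw [← hyk, ← hxm]
      unfold cell
      have h5 : (0 : ℝ) ≤ (φ x : ℝ) / ε := div_nonneg (φ x).2.1 hε.le
      have h6 := Nat.lt_floor_add_one ((φ x : ℝ) / ε)
      have h7 := Nat.lt_floor_add_one (K * ε ^ (α - 1))
      have h8 : (φ y : ℝ) / ε < ((⌊(φ x : ℝ) / ε⌋₊ + (⌊K * ε ^ (α - 1)⌋₊ + 1) + 1 : ℕ) : ℝ) := by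
        push_cast
        linarith
      have h9 : (0 : ℝ) ≤ (φ y : ℝ) / ε := div_nonneg (φ y).2.1 hε.le
      have h10 := (Nat.floor_lt h9).2 h8
      omega
    refine (Set.encard_le_encard hsub).trans ?_
    rw [Set.encard_coe_eq_coe_finsetCard, Nat.card_Icc]
    norm_cast
    omega
  · rw [Set.not_nonempty_iff_eq_empty] at hne
    rw [hne, Set.encard_empty]
    exact zero_le

/-- the itinerary of length `n` -/
noncomputable def itin (φ : I → I) (ε : ℝ) : ℕ → I → List ℕ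
  | 0, _ => []
  | n + 1, x => cell ε (φ^[n] x) :: itin φ ε n x

theorem itin_eq {φ : I → I} {ε : ℝ} : ∀ {n : ℕ} {x y : I}, itin φ ε n x = itin φ ε n y →
    ∀ j < n, cell ε (φ^[j] x) = cell ε (φ^[j] y)
  | 0, _, _, _ => fun j hj => absurd hj (Nat.not_lt_zero j)
  | n + 1, x, y, h => by
    rw [itin, itin, List.cons.injEq] at h
    intro j hj
    rcases Nat.lt_succ_iff_lt_or_eq.1 hj with h1 | h1
    · exact itin_eq h.2 j h1
    · rw [h1]; exact h.1

theorem range_bound {φ : I → I} {ε : ℝ} (hε : 0 < ε) {M : ℕ}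
    (hM : ∀ i, (succs φ ε i).encard ≤ (M : ℕ∞)) :
    ∀ n : ℕ, (Set.range (itin φ ε (n + 1))).encard ≤ (((⌊1 / ε⌋₊ + 1) * M ^ n : ℕ) : ℕ∞)
  | 0 => by
    have hsub : Set.range (itin φ ε 1) ⊆ (fun k : ℕ => [k]) '' (Finset.range (⌊1 / ε⌋₊ + 1)) := by
      rintro l ⟨x, rfl⟩
      refine ⟨cell ε x, ?_, rfl⟩
      rw [Finset.coe_range, Set.mem_Iio]
      exact Nat.lt_succ_of_le (cell_le hε x)
    refine (Set.encard_le_encard hsub).trans ((Set.encard_image_le _ _).trans ?_)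
    rw [Set.encard_coe_eq_coe_finsetCard, Finset.card_range, pow_zero, mul_one]
  | n + 1 => by
    classical
    have ih := range_bound hε hM n
    have hfin : (Set.range (itin φ ε (n + 1))).Finite :=
      Set.finite_of_encard_le_coe ih
    have hfs : ∀ i, (succs φ ε i).Finite := fun i => Set.finite_of_encard_le_coe (hM i)
    set T : Finset (List ℕ) := hfin.toFinset with hT
    set U : Finset (List ℕ) := T.biUnion (fun l => (hfs (l.headD 0)).toFinset.image
      (fun m => m :: l)) with hU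
    have hsub : Set.range (itin φ ε (n + 1 + 1)) ⊆ (U : Set (List ℕ)) := by
      rintro l ⟨x, rfl⟩
      rw [Finset.mem_coe, hU, Finset.mem_biUnion]
      refine ⟨itin φ ε (n + 1) x, ?_, ?_⟩
      · rw [hT, Set.Finite.mem_toFinset]; exact ⟨x, rfl⟩
      · rw [Finset.mem_image]
        refine ⟨cell ε (φ^[n + 1] x), ?_, rfl⟩
        rw [Set.Finite.mem_toFinset]
        refine ⟨φ^[n] x, rfl, ?_⟩
        rw [Function.iterate_succ_apply']
    have hcardT : T.card ≤ (⌊1 / ε⌋₊ + 1) * M ^ n := by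
      have : (T.card : ℕ∞) ≤ (((⌊1 / ε⌋₊ + 1) * M ^ n : ℕ) : ℕ∞) := by
        rw [← Set.encard_coe_eq_coe_finsetCard, hT, Set.Finite.coe_toFinset]
        exact ih
      exact_mod_cast this
    have hcardU : U.card ≤ (⌊1 / ε⌋₊ + 1) * M ^ (n + 1) := by
      have h1 : U.card ≤ T.card * M := by
        rw [hU]
        refine Finset.card_biUnion_le_card_mul _ _ _ fun l _ => ?_
        refine Finset.card_image_le.trans ?_
        have h2 := hM (l.headD 0)
        rw [← (hfs (l.headD 0)).coe_toFinset, Set.encard_coe_eq_coe_finsetCard] at h2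
        exact_mod_cast h2
      calc U.card ≤ T.card * M := h1
        _ ≤ ((⌊1 / ε⌋₊ + 1) * M ^ n) * M := Nat.mul_le_mul_right _ hcardT
        _ = (⌊1 / ε⌋₊ + 1) * M ^ (n + 1) := by rw [pow_succ, mul_assoc]
    refine (Set.encard_le_encard hsub).trans ?_
    rw [Set.encard_coe_eq_coe_finsetCard]
    exact_mod_cast hcardU

theorem card_le_of_separated {φ : I → I} {ε : ℝ} (hε : 0 < ε) {M : ℕ}
    (hM : ∀ i, (succs φ ε i).encard ≤ (M : ℕ∞)) {n : ℕ} {A : Finset I}
    (hA : IsSeparated φ (n + 1) ε A) : A.card ≤ (⌊1 / ε⌋₊ + 1) * M ^ n := by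
  classical
  have hinj : Set.InjOn (itin φ ε (n + 1)) (A : Set I) := by
    intro x hx y hy hxy
    by_contra hne
    obtain ⟨j, hj, hlt⟩ := hA x hx y hy hne
    exact absurd (dist_of_cell hε (itin_eq hxy j hj)) (not_lt.2 hlt.le)
  have h1 : (A : Set I).encard ≤ (Set.range (itin φ ε (n + 1))).encard := by
    rw [← hinj.encard_image]
    exact Set.encard_le_encard (Set.image_subset_range _ _)
  have h2 := h1.trans (range_bound hε hM n)
  rw [Set.encard_coe_eq_coe_finsetCard] at h2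
  exact_mod_cast h2

theorem sepNum_le {φ : I → I} {ε : ℝ} (hε : 0 < ε) {M : ℕ}
    (hM : ∀ i, (succs φ ε i).encard ≤ (M : ℕ∞)) (n : ℕ) :
    sepNum φ (n + 1) ε ≤ (⌊1 / ε⌋₊ + 1) * M ^ n := by
  unfold sepNum
  apply csSup_le
  · exact ⟨0, ∅, by intro x hx; simp at hx, rfl⟩
  · rintro k ⟨A, hA, rfl⟩
    exact card_le_of_separated hε hM hA

/-- A trivial bound of the size of separated sets, used to see that the maximum exists. -/
theorem succs_trivial (φ : I → I) {ε : ℝ} (hε : 0 < ε) (i : ℕ) :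
    (succs φ ε i).encard ≤ ((⌊1 / ε⌋₊ + 1 : ℕ) : ℕ∞) := by
  have hsub : succs φ ε i ⊆ (Finset.range (⌊1 / ε⌋₊ + 1) : Set ℕ) := by
    rintro m ⟨x, _, rfl⟩
    rw [Finset.coe_range, Set.mem_Iio]
    exact Nat.lt_succ_of_le (cell_le hε _)
  refine (Set.encard_le_encard hsub).trans ?_
  rw [Set.encard_coe_eq_coe_finsetCard, Finset.card_range]

theorem sepNum_isGreatest (φ : I → I) {ε : ℝ} (hε : 0 < ε) {n : ℕ} (hn : 1 ≤ n) :
    IsGreatest {k : ℕ | ∃ A : Finset I, IsSeparated φ n ε A ∧ A.card = k} (sepNum φ n ε) := by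
  obtain ⟨m, rfl⟩ : ∃ m, n = m + 1 := ⟨n - 1, by omega⟩
  have hb : BddAbove {k : ℕ | ∃ A : Finset I, IsSeparated φ (m + 1) ε A ∧ A.card = k} := by
    refine ⟨(⌊1 / ε⌋₊ + 1) * (⌊1 / ε⌋₊ + 1) ^ m, ?_⟩
    rintro k ⟨A, hA, rfl⟩
    exact card_le_of_separated hε (fun i => succs_trivial φ hε i) hA
  have hne : {k : ℕ | ∃ A : Finset I, IsSeparated φ (m + 1) ε A ∧ A.card = k}.Nonempty :=
    ⟨0, ∅, by intro x hx; simp at hx, rfl⟩
  exact ⟨Nat.sSup_mem hne hb, fun k hk => le_csSup hb hk⟩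

theorem sepRate_le {φ : I → I} {ε : ℝ} (hε : 0 < ε) {M : ℕ} (hM1 : 1 ≤ M)
    (hM : ∀ i, (succs φ ε i).encard ≤ (M : ℕ∞)) : sepRate φ ε ≤ ((Real.log M : ℝ) : EReal) := by
  set N : ℕ := ⌊1 / ε⌋₊ + 1 with hN
  have hlim : Tendsto (fun n : ℕ => Real.log N / n + Real.log M) atTop (𝓝 (Real.log M)) := by
    have := (tendsto_const_div_atTop_nhds_zero_nat (Real.log N)).add_const (Real.log M)
    rwa [zero_add] at this
  have hlim' : Tendsto (fun n : ℕ => ((Real.log N / n + Real.log M : ℝ) : EReal)) atTop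
      (𝓝 ((Real.log M : ℝ) : EReal)) := (continuous_coe_real_ereal.tendsto _).comp hlim
  rw [← hlim'.limsup_eq]
  unfold sepRate
  refine limsup_le_limsup ?_ (by isBoundedDefault) (by isBoundedDefault)
  filter_upwards [eventually_ge_atTop 1] with n hn
  obtain ⟨m, rfl⟩ : ∃ m, n = m + 1 := ⟨n - 1, by omega⟩
  rw [EReal.coe_le_coe_iff]
  have hpos : (0 : ℝ) < ((m + 1 : ℕ) : ℝ) := by positivity
  have hlM : 0 ≤ Real.log M := Real.log_natCast_nonneg M
  have h1 : Real.log (sepNum φ (m + 1) ε) ≤ Real.log N + m * Real.log M := by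
    rcases Nat.eq_zero_or_pos (sepNum φ (m + 1) ε) with h0 | h0
    · rw [h0, Nat.cast_zero, Real.log_zero]
      have := Real.log_natCast_nonneg N
      positivity
    · have h2 : ((sepNum φ (m + 1) ε : ℕ) : ℝ) ≤ (N : ℝ) * (M : ℝ) ^ m := by
        exact_mod_cast sepNum_le hε hM m
      have h3 := Real.log_le_log (by exact_mod_cast h0) h2
      rwa [Real.log_mul (by positivity) (by positivity), Real.log_pow] at h3
  rw [div_add' _ _ _ hpos.ne']
  apply div_le_div_of_nonneg_right _ hpos.le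
  push_cast
  nlinarith

/-- **Main theorem.**  For every `α ∈ (0,1]`, every `α`-Hölder map `φ : [0,1] → [0,1]` has upper
metric mean dimension at most `1 - α`, hence (for both the upper and the lower one) different from
`1`. For every map and all `n ≥ 1`, `ε > 0` the maximum defining `sep(n, φ, ε)` exists. -/
theorem result :
    (∀ α : ℝ, 0 < α → α ≤ 1 → ∀ φ : I → I, IsHolder α φ →
      upperMdim φ ≤ ((1 - α : ℝ) : EReal) ∧ lowerMdim φ ≤ upperMdim φ ∧
      upperMdim φ ≠ 1 ∧ lowerMdim φ ≠ 1) ∧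
    ∀ (φ : I → I) (n : ℕ) (ε : ℝ), 1 ≤ n → 0 < ε →
      IsGreatest {k : ℕ | ∃ A : Finset I, IsSeparated φ n ε A ∧ A.card = k} (sepNum φ n ε) := by
  refine ⟨?_, fun φ n ε hn hε => sepNum_isGreatest φ hε hn⟩
  intro α hα0 hα1 φ hφ
  obtain ⟨K, hK, hφK⟩ := hφ
  have key : upperMdim φ ≤ ((1 - α : ℝ) : EReal) := by
    have hlog : Tendsto (fun ε : ℝ => |Real.log ε|) (𝓝[>] 0) atTop :=
      tendsto_abs_atBot_atTop.comp Real.tendsto_log_nhdsGT_zero
    have hlim : Tendsto (fun ε : ℝ => Real.log (K + 2) / |Real.log ε| + (1 - α)) (𝓝[>] 0)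
        (𝓝 (1 - α)) := by
      have := (hlog.const_div_atTop (Real.log (K + 2))).add_const (1 - α)
      rwa [zero_add] at this
    have hlim' : Tendsto (fun ε : ℝ =>
        ((Real.log (K + 2) / |Real.log ε| + (1 - α) : ℝ) : EReal)) (𝓝[>] 0)
        (𝓝 ((1 - α : ℝ) : EReal)) := (continuous_coe_real_ereal.tendsto _).comp hlim
    rw [← hlim'.limsup_eq]
    unfold upperMdim
    refine limsup_le_limsup ?_ (by isBoundedDefault) (by isBoundedDefault)
    have hev : ∀ᶠ ε : ℝ in 𝓝[>] 0, ε < 1 := by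
      have : Set.Iio (1 : ℝ) ∈ 𝓝 (0 : ℝ) := Iio_mem_nhds one_pos
      exact mem_nhdsWithin_of_mem_nhds this
    filter_upwards [self_mem_nhdsWithin, hev] with ε hε hε1
    have hε : 0 < ε := hε
    have hl : 0 < |Real.log ε| := abs_pos.2 (Real.log_neg hε hε1).ne
    set M : ℕ := ⌊K * ε ^ (α - 1)⌋₊ + 2 with hM
    have h1 := sepRate_le (φ := φ) hε (M := M) (by omega)
      (fun i => succs_bound hε hα0 hK hφK i)
    have h2 : Real.log M ≤ Real.log (K + 2) + (1 - α) * |Real.log ε| := by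
      have hp : (1 : ℝ) ≤ ε ^ (α - 1) :=
        Real.one_le_rpow_of_pos_of_le_one_of_nonpos hε hε1.le (by linarith)
      have h3 : (M : ℝ) ≤ (K + 2) * ε ^ (α - 1) := by
        have h4 : ((⌊K * ε ^ (α - 1)⌋₊ : ℕ) : ℝ) ≤ K * ε ^ (α - 1) :=
          Nat.floor_le (by positivity)
        rw [hM]
        push_cast
        linarith
      have h5 := Real.log_le_log (by rw [hM]; positivity) h3
      rw [Real.log_mul (by positivity) (by positivity), Real.log_rpow hε] at h5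
      rw [abs_of_neg (Real.log_neg hε hε1)]
      linarith
    have h6 : sepRate φ ε ≤ ((Real.log (K + 2) + (1 - α) * |Real.log ε| : ℝ) : EReal) :=
      h1.trans (EReal.coe_le_coe_iff.2 h2)
    have h7 : sepRate φ ε / ((|Real.log ε| : ℝ) : EReal) ≤
        ((Real.log (K + 2) + (1 - α) * |Real.log ε| : ℝ) : EReal) / ((|Real.log ε| : ℝ) : EReal) :=
      EReal.div_le_div_right_of_nonneg (by exact_mod_cast hl.le) h6
    refine h7.trans ?_
    rw [← EReal.coe_div, EReal.coe_le_coe_iff]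
    rw [add_div, mul_div_assoc, div_self hl.ne', mul_one]
  have hle : lowerMdim φ ≤ upperMdim φ := liminf_le_limsup (by isBoundedDefault)
    (by isBoundedDefault)
  have hlt : ((1 - α : ℝ) : EReal) < 1 := by
    have : (1 - α : ℝ) < 1 := by linarith
    exact_mod_cast this
  exact ⟨key, hle, (key.trans_lt hlt).ne, ((hle.trans key).trans_lt hlt).ne⟩

end Pool.Agent.Results.MP_428550_an.HolderBound
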